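import Pool.Agent.Helper67_PP.Stmts
import Pool.Agent.Helper96_PP.Trn
import Pool.Agent.Helper94_PP.Nch
import Pool.Agent.Helper94_PP.Bridge
import Pool.Agent.Helper20_PP.Nls

/-!
# Squad PP, module POW
-/

open scoped BigOperators

set_option linter.unusedSectionVars false

noncomputable section

namespace Pool.Agent.PP.H91R

open Pool.Agent.Helper51_AWC Pool.Agent.Helper79_WRA Pool.Agent.PP

section basic

variable {F D : Type} [Field F] [Group D] [Finite D]

theorem charP_MA (ℓ : ℕ) [CharP F ℓ] : CharP (MonoidAlgebra F D) ℓ :=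
  charP_of_injective_algebraMap
    (FaithfulSMul.algebraMap_injective F (MonoidAlgebra F D)) ℓ

/-- the power `s ^ (k + 1)` -/
def pw (s : D → F) (k : ℕ) : D → F := (mulF s)^[k] s

theorem ma_pw (s : D → F) (k : ℕ) : ma (pw s k) = ma s ^ (k + 1) := by
  unfold pw
  rw [ma_iterate, pow_succ]

theorem pw_cl {s : D → F} (hs : IsCl s) (k : ℕ) : IsCl (pw s k) := by
  rw [isCl_iff, ma_pw]
  exact Subalgebra.pow_mem _ ((isCl_iff s).1 hs) _

theorem ev_pw {n : ℕ} (ρ : D →* Matrix (Fin n) (Fin n) F) (s : D → F) (k : ℕ) :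
    ev ρ (pw s k) = ev ρ s ^ (k + 1) := by
  unfold pw
  rw [ev_iterate, pow_succ]

theorem pw_trans {s : D → F} {z : D} {c : F} (h : ∀ x, s (z * x) = c * s x) (k : ℕ) :
    ∀ x, pw s k (z * x) = c * pw s k x := by
  have key : ∀ b : D → F, ∀ x, mulF s b (z * x) = c * mulF s b x := by
    intro b x
    have := Fintype.ofFinite D
    unfold mulF
    rw [finsum_eq_sum_of_fintype, finsum_eq_sum_of_fintype, Finset.mul_sum,
      ← Equiv.sum_comp (Equiv.mulLeft z)]
    refine Finset.sum_congr rfl fun t _ => ?_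
    rw [Equiv.coe_mulLeft, h]
    have e : (z * t)⁻¹ * (z * x) = t⁻¹ * x := by group
    rw [e]
    ring
  induction k with
  | zero => exact h
  | succ k _ =>
    intro x
    unfold pw
    rw [Function.iterate_succ_apply']
    exact key _ x

end basic

/-- the Brauer map of the powers, restricted to a local subgroup -/
theorem br_pw {ℓ : ℕ} {F : Type} [Field F] (hF : GoodF ℓ F) (hbrm : BrmStmt) {G : Type} [Group G]
    [Finite G] {P X : Subgroup G} (hP : IsPGroup ℓ P)
    (hC : Subgroup.centralizer (P : Set G) ≤ X) (hX : X ≤ Subgroup.normalizer (P : Set G))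
    {s : G → F} (hs : IsCl s) (k : ℕ) :
    (fun t : X => br P (pw s k) t) = pw (fun t : X => br P s t) k := by
  obtain ⟨b1, b2, -⟩ := hbrm ℓ F hF G P X hP hC hX
  induction k with
  | zero => rfl
  | succ k ih =>
    unfold pw at ih ⊢
    rw [Function.iterate_succ_apply', Function.iterate_succ_apply', ← ih]
    have hcl : IsCl ((mulF s)^[k] s) := pw_cl hs k
    rw [b1 s _ hs hcl, ← b2]

/-- the Brauer map of a class function is a class function of the local subgroup -/
theorem br_cl {F : Type} [Field F] {G : Type} [Group G] {P X : Subgroup G}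
    (hX : X ≤ Subgroup.normalizer (P : Set G)) {s : G → F} (hs : IsCl s) :
    IsCl (fun t : X => br P s t) := by
  intro x y
  have h1 : ((y * x * y⁻¹ : X) : G) ∈ Subgroup.centralizer (P : Set G) ↔
      (x : G) ∈ Subgroup.centralizer (P : Set G) := by
    show (y : G) * x * (y : G)⁻¹ ∈ _ ↔ _
    exact H20.cent_conj_iff (hX y.2)
  show br P s ((y * x * y⁻¹ : X) : G) = br P s x
  unfold br
  by_cases hx : (x : G) ∈ Subgroup.centralizer (P : Set G)
  · rw [if_pos hx, if_pos (h1.2 hx)]
    exact hs _ _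
  · rw [if_neg hx, if_neg (fun h => hx (h1.1 h))]

/-- POW. -/
theorem pow_ : H67.PowStmt := by
  intro ℓ F _ hF D _ _ s hs h01
  have := hF.char
  have : Fact ℓ.Prime := ⟨hF.prime⟩
  have hcp : CharP (MonoidAlgebra F D) ℓ := charP_MA ℓ
  have hcl : IsCl (mulF s s - s) := by
    rw [isCl_iff, ma_sub, ma_mul]
    have h1 := (isCl_iff s).1 hs
    exact Subalgebra.sub_mem _ (Subalgebra.mul_mem _ h1 h1) h1
  -- `s ^ 2 - s` is nilpotent
  have hev : ∀ (n : ℕ) (ρ : D →* Matrix (Fin n) (Fin n) F), IsIrr ρ →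
      ∃ w : F, ev ρ s = Matrix.scalar (Fin n) w ∧ (w = 0 ∨ w = 1) := by
    intro n ρ hρ
    obtain ⟨w, h1, -, -⟩ := H20.eig F D n ρ hρ s hs
    exact ⟨w, h1, h01 n ρ w hρ h1⟩
  obtain ⟨k, hk⟩ := H20.ibn ℓ F hF D (mulF s s - s) (by
    intro n ρ hρ
    obtain ⟨w, h1, h2⟩ := hev n ρ hρ
    rw [sub_eq_add_neg, ← neg_one_smul F s, ev_add, ev_smul, ev_mulF, h1, ← map_mul]
    rcases h2 with h2 | h2
    · rw [h2]; simp
    · rw [h2]; simp)
  have hnil : (ma s * ma s - ma s) ^ (k + 1) = 0 := by
    have h1 := congrArg ma hk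
    rw [ma_iterate, ma_zero, ← pow_succ, ma_sub, ma_mul] at h1
    exact h1
  -- the exponent
  obtain ⟨r, hr⟩ : ∃ r, k + 1 ≤ ℓ ^ r := ⟨k + 1, (Nat.lt_pow_self hF.prime.one_lt).le⟩
  obtain ⟨m, hm⟩ : ∃ m, m + 1 = ℓ ^ r := ⟨ℓ ^ r - 1, Nat.sub_add_cancel (by omega)⟩
  have hid : IsIdem (pw s m) := by
    rw [isIdem_iff]
    refine ⟨(isCl_iff _).1 (pw_cl hs m), ?_⟩
    have h1 : (ma s * ma s - ma s) ^ ℓ ^ r = 0 := pow_eq_zero_of_le hr hnil
    have hcomm : Commute (ma s * ma s) (ma s) := (Commute.refl (ma s)).mul_left (Commute.refl _)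
    rw [sub_pow_char_pow_of_commute _ _ hcomm, (Commute.refl (ma s)).mul_pow, ← hm] at h1
    show ma (pw s m) * ma (pw s m) = ma (pw s m)
    rw [ma_pw]
    exact sub_eq_zero.1 h1
  refine ⟨pw s m, hid, ?_, ?_, fun z c h => pw_trans h m⟩
  · intro n ρ hρ
    obtain ⟨w, h1, h2⟩ := hev n ρ hρ
    rw [ev_pw, h1, ← map_pow]
    rcases h2 with h2 | h2
    · rw [h2, zero_pow (by omega)]
    · rw [h2, one_pow]
  · intro Q _
    classical
    have key : ∀ a : D → F, YY ℓ Q a = ∑ d ∈ (chainsOn (psubIn ℓ Q) ⊥).filter NormalChain,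
        (-1) ^ (d.card + 1) * ((Nat.card (stab d) : ℤ) * (lnum (stab d) a : ℤ)) := by
      intro a
      exact H94.nch ℓ D Q (fun X _ => (Nat.card X : ℤ) * (lnum X a : ℤ))
    rw [key, key]
    refine Finset.sum_congr rfl fun d hd => ?_
    rw [Finset.mem_filter] at hd
    obtain ⟨hd1, hd2⟩ := hd
    obtain ⟨c1, c2, c3⟩ := mem_chainsOn.1 hd1
    obtain ⟨t1, t2⟩ := H94.top_mem c3 ⟨_, c2⟩
    have htp : IsPGroup ℓ (top d) := (mem_psubIn.1 (c1 t1)).2
    have hPX : top d ≤ stab d := by
      intro x hx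
      rw [H94.mem_stab']
      intro D' hD
      exact hd2 D' hD hx
    have hXP : stab d ≤ Subgroup.normalizer (top d : Set D) := by
      intro x hx
      exact (H94.mem_stab'.1 hx) _ t1
    have hCX : Subgroup.centralizer (top d : Set D) ≤ stab d := by
      intro x hx
      rw [H94.mem_stab']
      intro D' hD
      have hle : D' ≤ top d := t2 D' hD
      rw [Subgroup.mem_normalizer_iff]
      intro y
      rw [Subgroup.mem_centralizer_iff] at hx
      constructor
      · intro hy
        rw [← hx y (hle hy), mul_inv_cancel_right]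
        exact hy
      · intro hy
        have h1 := hx _ (hle hy)
        have h2 : x * y * x⁻¹ = y := by
          have h3 : x * y = x * (x * y * x⁻¹) := by
            rw [← h1]; group
          exact (mul_left_cancel h3).symm
        rwa [h2] at hy
    have hl : lnum (stab d) (pw s m) = lnum (stab d) s := by
      rw [H96.lnum_br hF H20.nls htp hPX hXP (pw_cl hs m), H96.lnum_br hF H20.nls htp hPX hXP hs]
      have e1 := br_pw hF H20.brm htp hCX hXP hs m
      have hcl0 : IsCl (fun t : stab d => br (top d) s t) := br_cl hXP hs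
      have hnil0 : ∀ (n : ℕ) (ρ : stab d →* Matrix (Fin n) (Fin n) F) (w : F), IsIrr ρ →
          ev ρ (fun t : stab d => br (top d) s t) = Matrix.scalar (Fin n) w → w = 0 ∨ w = 1 := by
        intro n ρ w hρ hw
        have e2 := br_pw hF H20.brm htp hCX hXP hcl k
        have e3 : pw (mulF s s - s) k = 0 := hk
        rw [e3] at e2
        have e4 : (fun t : stab d => br (top d) (0 : D → F) t) = 0 := by
          funext t
          simp [br]
        have e5 : (fun t : stab d => br (top d) (mulF s s - s) t) =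
            pw (fun t : stab d => br (top d) s t) 1 - (fun t : stab d => br (top d) s t) := by
          have e6 := br_pw hF H20.brm htp hCX hXP hs 1
          rw [← e6]
          funext t
          show br (top d) (mulF s s - s) t = br (top d) (mulF s s) t - br (top d) s t
          unfold br
          by_cases ht : (t : D) ∈ Subgroup.centralizer (top d : Set D)
          · simp only [if_pos ht]; rfl
          · simp only [if_neg ht, sub_zero]
        rw [e4, e5] at e2
        have e7 := congrArg (ev ρ) e2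
        have e8 : ev ρ (0 : stab d → F) = 0 := by
          have := ev_smul ρ (0 : F) (0 : stab d → F)
          rw [zero_smul, zero_smul] at this
          exact this
        rw [ev_pw, e8, sub_eq_add_neg, ← neg_one_smul F (fun t : stab d => br (top d) s t), ev_add,
          ev_smul, ev_pw, hw, ← map_pow, neg_one_smul, ← map_neg, ← map_add, ← map_pow] at e7
        have e9 : (0 : F) = (w ^ (1 + 1) + -w) ^ (k + 1) := by
          have := congrFun (congrFun e7 ⟨0, hρ.1⟩) ⟨0, hρ.1⟩
          simpa using this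
        have e10 : w ^ (1 + 1) + -w = 0 := pow_eq_zero_iff (by omega) |>.1 e9.symm
        have e11 : w * (w - 1) = 0 := by
          rw [← e10]; ring
        rcases mul_eq_zero.1 e11 with h | h
        · exact Or.inl h
        · exact Or.inr (sub_eq_zero.1 h)
      unfold lnum
      congr 1
      ext φ
      refine and_congr_right fun hφ => ?_
      obtain ⟨n, ρ, hρ, rfl⟩ := hφ
      obtain ⟨w, g1, g2, -⟩ := H20.eig F (stab d) n ρ hρ _ hcl0
      have hw := hnil0 n ρ w hρ g1
      have hcl1 : IsCl (pw (fun t : stab d => br (top d) s t) m) := pw_cl hcl0 m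
      obtain ⟨w', g3, g4, -⟩ := H20.eig F (stab d) n ρ hρ _ hcl1
      rw [ev_pw, g1, ← map_pow] at g3
      have g5 : w ^ (m + 1) = w' := by
        have := congrFun (congrFun g3 ⟨0, hρ.1⟩) ⟨0, hρ.1⟩
        simpa using this
      have g6 : w' = w := by
        rw [← g5]
        rcases hw with hw | hw
        · rw [hw, zero_pow (by omega)]
        · rw [hw, one_pow]
      rw [g6] at g4
      rw [e1, g4, g2]
    rw [hl]

end Pool.Agent.PP.H91R
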