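import Pool.Agent.Helper91_AWR.Ssp1

/-!
# Squad PP, module SSP: the sums of the double are products
-/

open scoped BigOperators

set_option linter.unusedSectionVars false

noncomputable section

namespace Pool.Agent.PP.H91R

open Pool.Agent.Helper51_AWC Pool.Agent.Helper79_WRA Pool.Agent.PP

section tau

variable {F : Type} [Field F]

theorem tau_inv {ℓ : ℕ} (hF : GoodF ℓ F) {τ : F → ℂ} (hτ : IsLift τ) {c : F} (hc : c ≠ 0) :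
    τ c⁻¹ = (starRingEnd ℂ) (τ c) := by
  obtain ⟨n, hn, hcn⟩ := hF.tors c hc
  have h1 : τ c * τ c⁻¹ = 1 := by
    rw [← hτ.mul c c⁻¹ hc (inv_ne_zero hc), mul_inv_cancel₀ hc, hτ.one]
  have hp : ∀ k : ℕ, τ (c ^ k) = τ c ^ k := by
    intro k
    induction k with
    | zero => rw [pow_zero, pow_zero, hτ.one]
    | succ k ih => rw [pow_succ, hτ.mul _ _ (pow_ne_zero k hc) hc, ih, pow_succ]
  have h2 : ‖τ c‖ = 1 := by
    have h3 : τ c ^ n = 1 := by rw [← hp, hcn, hτ.one]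
    have h4 : ‖τ c‖ ^ n = 1 := by rw [← norm_pow, h3, norm_one]
    exact (pow_eq_one_iff_of_nonneg (norm_nonneg _) hn.ne').1 h4
  have h5 : τ c * (starRingEnd ℂ) (τ c) = 1 := by
    rw [Complex.mul_conj, Complex.normSq_eq_norm_sq, h2]
    simp
  have h6 : τ c ≠ 0 := by
    intro h
    rw [h, norm_zero] at h2
    exact zero_ne_one h2
  exact mul_left_cancel₀ h6 (h1.trans h5.symm)

end tau

section dbl

variable {ℓ : ℕ} {F X : Type} [Field F] [Group X] [Finite X] (Y : Subgroup X) [hY : Y.Normal]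

theorem mem_Lam (a b : X) : (a, b) ∈ Lam Y ↔ a⁻¹ * b ∈ Y := Iff.rfl

theorem mem_YY2 (k : Lam Y) : k ∈ YY2 Y ↔ k.1.1 ∈ Y ∧ k.1.2 ∈ Y := Iff.rfl

theorem mem_SL (S S' : Subgroup X) (k : Lam Y) :
    k ∈ (S.prod S').subgroupOf (Lam Y) ↔ k.1.1 ∈ S ∧ k.1.2 ∈ S' := Iff.rfl

instance YY2_normal : (YY2 Y).Normal := by
  constructor
  rintro n ⟨h1, h2⟩ g
  exact ⟨hY.conj_mem _ h1 _, hY.conj_mem _ h2 _⟩

/-- the intersection is a product -/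
def eK (S S' : Subgroup X) :
    ↥(YY2 Y ⊓ (S.prod S').subgroupOf (Lam Y)) ≃* ↥(Y ⊓ S) × ↥(Y ⊓ S') where
  toFun k := (⟨k.1.1.1, ⟨k.2.1.1, k.2.2.1⟩⟩, ⟨k.1.1.2, ⟨k.2.1.2, k.2.2.2⟩⟩)
  invFun a := ⟨⟨((a.1 : X), (a.2 : X)), Y.mul_mem (Y.inv_mem a.1.2.1) a.2.2.1⟩,
    ⟨⟨a.1.2.1, a.2.2.1⟩, ⟨a.1.2.2, a.2.2.2⟩⟩⟩
  left_inv _ := rfl
  right_inv _ := rfl
  map_mul' _ _ := rfl

/-- conjugation by an element of `S` -/
def cjE (S : Subgroup X) (r : X) (hr : r ∈ S) : ↥(Y ⊓ S) ≃* ↥(Y ⊓ S) where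
  toFun g := ⟨r * g * r⁻¹, ⟨hY.conj_mem _ g.2.1 r, S.mul_mem (S.mul_mem hr g.2.2) (S.inv_mem hr)⟩⟩
  invFun g := ⟨r⁻¹ * g * r⁻¹⁻¹, ⟨hY.conj_mem _ g.2.1 r⁻¹,
    S.mul_mem (S.mul_mem (S.inv_mem hr) g.2.2) (S.inv_mem (S.inv_mem hr))⟩⟩
  left_inv g := by
    apply Subtype.ext
    show r⁻¹ * (r * g * r⁻¹) * r⁻¹⁻¹ = g
    group
  right_inv g := by
    apply Subtype.ext
    show r * (r⁻¹ * g * r⁻¹⁻¹) * r⁻¹ = g
    group
  map_mul' g h := by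
    apply Subtype.ext
    show r * (g * h) * r⁻¹ = (r * g * r⁻¹) * (r * h * r⁻¹)
    group

/-- the product of the functions `φ` and the dual of `φ'` -/
def Psi (S S' : Subgroup X) (φ : ↥(Y ⊓ S) → F) (φ' : ↥(Y ⊓ S') → F) :
    ↥(YY2 Y ⊓ (S.prod S').subgroupOf (Lam Y)) → F :=
  fun k => φ (eK Y S S' k).1 * φ' ((eK Y S S' k).2)⁻¹

variable {Y}

theorem Psi_mem (hF : GoodF ℓ F) {S S' : Subgroup X} {φ : ↥(Y ⊓ S) → F} {φ' : ↥(Y ⊓ S') → F}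
    (h : φ ∈ IBr F ↥(Y ⊓ S)) (h' : φ' ∈ IBr F ↥(Y ⊓ S')) :
    Psi Y S S' φ φ' ∈ IBr F ↥(YY2 Y ⊓ (S.prod S').subgroupOf (Lam Y)) := by
  have h1 := (H5.pib ℓ F hF ↥(Y ⊓ S) ↥(Y ⊓ S')).2.1 φ h (dlf φ') (dlf_mem h')
  exact H51.ibr_equiv (eK Y S S') h1

theorem Psi_inj (hF : GoodF ℓ F) {S S' : Subgroup X} {φ ψ : ↥(Y ⊓ S) → F}
    {φ' ψ' : ↥(Y ⊓ S') → F} (h : φ ∈ IBr F ↥(Y ⊓ S)) (h' : φ' ∈ IBr F ↥(Y ⊓ S'))
    (g : ψ ∈ IBr F ↥(Y ⊓ S)) (g' : ψ' ∈ IBr F ↥(Y ⊓ S'))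
    (he : Psi Y S S' φ φ' = Psi Y S S' ψ ψ') : φ = ψ ∧ φ' = ψ' := by
  have h1 := (H5.pib ℓ F hF ↥(Y ⊓ S) ↥(Y ⊓ S')).2.2.2 φ h (dlf φ') (dlf_mem h') ψ g (dlf ψ')
    (dlf_mem g') (by
      intro x y
      have := congrFun he ((eK Y S S').symm (x, y))
      exact this)
  refine ⟨h1.1, ?_⟩
  have h2 := congrArg dlf h1.2
  rwa [dlf_dlf, dlf_dlf] at h2

theorem Psi_surj (hF : GoodF ℓ F) {S S' : Subgroup X}
    {Φ : ↥(YY2 Y ⊓ (S.prod S').subgroupOf (Lam Y)) → F}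
    (h : Φ ∈ IBr F ↥(YY2 Y ⊓ (S.prod S').subgroupOf (Lam Y))) :
    ∃ φ ∈ IBr F ↥(Y ⊓ S), ∃ φ' ∈ IBr F ↥(Y ⊓ S'), Φ = Psi Y S S' φ φ' := by
  have h1 := H51.ibr_equiv (eK Y S S').symm h
  obtain ⟨φ, hφ, φ₂, hφ₂, he⟩ := (H5.pib ℓ F hF ↥(Y ⊓ S) ↥(Y ⊓ S')).2.2.1 _ h1
  refine ⟨φ, hφ, dlf φ₂, dlf_mem hφ₂, ?_⟩
  funext k
  have h2 := congrFun he (eK Y S S' k)
  have h3 : Φ k = φ (eK Y S S' k).1 * φ₂ (eK Y S S' k).2 := h2
  rw [h3]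
  unfold Psi dlf
  rw [inv_inv]

/-- the action of the double of `f` -/
theorem actF_Psi {S S' : Subgroup X} (f : X → F) (φ : ↥(Y ⊓ S) → F) {φ' : ↥(Y ⊓ S') → F}
    (h' : φ' ∈ IBr F ↥(Y ⊓ S')) :
    actF (fun t : ↥(YY2 Y ⊓ (S.prod S').subgroupOf (Lam Y)) => sig Y f f t) (Psi Y S S' φ φ') =
      Psi Y S S' (actF (fun t : ↥(Y ⊓ S) => f t) φ) (actF (fun t : ↥(Y ⊓ S') => f t) φ') := by
  have := Fintype.ofFinite ↥(Y ⊓ S)
  have := Fintype.ofFinite ↥(Y ⊓ S')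
  have := Fintype.ofFinite ↥(YY2 Y ⊓ (S.prod S').subgroupOf (Lam Y))
  have hcl : ∀ a b, φ' (a * b) = φ' (b * a) := by
    intro a b
    obtain ⟨m, ρ, -, rfl⟩ := h'
    unfold tr
    rw [map_mul, map_mul, Matrix.trace_mul_comm]
  funext k
  unfold actF
  rw [finsum_eq_sum_of_fintype, ← Equiv.sum_comp (eK Y S S').symm.toEquiv, Fintype.sum_prod_type]
  unfold Psi
  beta_reduce
  rw [finsum_eq_sum_of_fintype, finsum_eq_sum_of_fintype, Finset.sum_mul_sum]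
  refine Finset.sum_congr rfl fun a _ => ?_
  rw [← Equiv.sum_comp (Equiv.inv _)]
  refine Finset.sum_congr rfl fun b _ => ?_
  show f a * f ((b : X)⁻¹)⁻¹ * (φ (a * (eK Y S S' k).1) * φ' (b⁻¹ * (eK Y S S' k).2)⁻¹) =
    f a * φ (a * (eK Y S S' k).1) * (f b * φ' (b * (eK Y S S' k).2⁻¹))
  rw [inv_inv, mul_inv_rev, inv_inv, hcl b]
  ring

theorem mem_phi (hF : GoodF ℓ F) {f : X → F} (hf : SBlk Y f) {R S R' S' : Subgroup X}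
    (hL : Loc ℓ Y R S) (hL' : Loc ℓ Y R' S') {p q : Lam Y} (hp : p.1.1 ∈ S) (hq : q.1.1 ∈ S)
    (hp' : p.1.2 ∈ S') (hq' : q.1.2 ∈ S') {φ : ↥(Y ⊓ S) → F} {φ' : ↥(Y ⊓ S') → F}
    (h : φ ∈ IBr F ↥(Y ⊓ S)) (h' : φ' ∈ IBr F ↥(Y ⊓ S')) :
    Psi Y S S' φ φ' ∈ phiS (YY2 Y) ((S.prod S').subgroupOf (Lam Y)) (sig Y f f) p q ↔
      φ ∈ phiS Y S f p.1.1 q.1.1 ∧ φ' ∈ phiS Y S' f p.1.2 q.1.2 := by
  have hne : Psi Y S S' φ φ' ≠ 0 := by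
    have h1 := Psi_mem hF h h'
    exact (H20.ibf ℓ F hF _).2.ne_zero ⟨_, h1⟩
  have hfix : ∀ r : Lam Y, r.1.1 ∈ S → r.1.2 ∈ S' →
      ((∀ n n' : ↥(YY2 Y ⊓ (S.prod S').subgroupOf (Lam Y)), (n' : Lam Y) = r * n * r⁻¹ →
        Psi Y S S' φ φ' n' = Psi Y S S' φ φ' n) ↔
      (∀ n n' : ↥(Y ⊓ S), (n' : X) = r.1.1 * n * r.1.1⁻¹ → φ n' = φ n) ∧
      ∀ n n' : ↥(Y ⊓ S'), (n' : X) = r.1.2 * n * r.1.2⁻¹ → φ' n' = φ' n) := by
    intro r hr hr'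
    constructor
    · intro hh
      have g1 := H51.ibr_equiv (cjE Y S r.1.1 hr) h
      have g2 := H51.ibr_equiv (cjE Y S' r.1.2 hr') h'
      have g3 : Psi Y S S' (fun g => φ (cjE Y S r.1.1 hr g)) (fun g => φ' (cjE Y S' r.1.2 hr' g)) =
          Psi Y S S' φ φ' := by
        funext k
        have hmem : r * (k : Lam Y) * r⁻¹ ∈ YY2 Y ⊓ (S.prod S').subgroupOf (Lam Y) := by
          refine ⟨(YY2_normal Y).conj_mem _ k.2.1 r, ?_⟩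
          exact ⟨S.mul_mem (S.mul_mem hr k.2.2.1) (S.inv_mem hr),
            S'.mul_mem (S'.mul_mem hr' k.2.2.2) (S'.inv_mem hr')⟩
        rw [← hh k ⟨r * (k : Lam Y) * r⁻¹, hmem⟩ rfl]
        unfold Psi
        have e1 : cjE Y S r.1.1 hr (eK Y S S' k).1 =
            (eK Y S S' ⟨r * (k : Lam Y) * r⁻¹, hmem⟩).1 := rfl
        have e2 : cjE Y S' r.1.2 hr' (eK Y S S' k).2⁻¹ =
            (eK Y S S' ⟨r * (k : Lam Y) * r⁻¹, hmem⟩).2⁻¹ := by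
          rw [map_inv]
          rfl
        beta_reduce
        rw [e1, e2]
      obtain ⟨g4, g5⟩ := Psi_inj hF g1 g2 h h' g3
      refine ⟨fun n n' hn => ?_, fun n n' hn => ?_⟩
      · have e3 : cjE Y S r.1.1 hr n = n' := Subtype.ext hn.symm
        rw [← e3]
        exact congrFun g4 n
      · have e3 : cjE Y S' r.1.2 hr' n = n' := Subtype.ext hn.symm
        rw [← e3]
        exact congrFun g5 n
    · rintro ⟨h1, h2⟩ n n' hn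
      have e1 : φ (eK Y S S' n').1 = φ (eK Y S S' n).1 := by
        apply h1
        exact congrArg (fun z : Lam Y => z.1.1) hn
      have e2 : φ' (eK Y S S' n').2⁻¹ = φ' (eK Y S S' n).2⁻¹ := by
        apply h2
        have h3 : n'.1.1.2 = r.1.2 * n.1.1.2 * r.1.2⁻¹ := congrArg (fun z : Lam Y => z.1.2) hn
        show (n'.1.1.2)⁻¹ = r.1.2 * (n.1.1.2)⁻¹ * r.1.2⁻¹
        rw [h3]
        group
      unfold Psi
      rw [e1, e2]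
  have hact : actF (fun t : ↥(YY2 Y ⊓ (S.prod S').subgroupOf (Lam Y)) => sig Y f f t)
      (Psi Y S S' φ φ') = Psi Y S S' φ φ' ↔
      actF (fun t : ↥(Y ⊓ S) => f t) φ = φ ∧ actF (fun t : ↥(Y ⊓ S') => f t) φ' = φ' := by
    rw [actF_Psi f φ h']
    constructor
    · intro hh
      rcases blk_scalar hF hY hf hL h with h1 | h1
      · rcases blk_scalar hF hY hf hL' h' with h2 | h2
        · exact ⟨h1, h2⟩
        · exfalso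
          apply hne
          rw [← hh, h2]
          funext k
          exact mul_zero _
      · exfalso
        apply hne
        rw [← hh, h1]
        funext k
        exact zero_mul _
    · rintro ⟨h1, h2⟩
      rw [h1, h2]
  constructor
  · rintro ⟨-, h2, h3, h4⟩
    obtain ⟨a1, a2⟩ := hact.1 h2
    obtain ⟨b1, b2⟩ := (hfix p hp hp').1 h3
    obtain ⟨c1, c2⟩ := (hfix q hq hq').1 h4
    exact ⟨⟨h, a1, b1, c1⟩, ⟨h', a2, b2, c2⟩⟩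
  · rintro ⟨⟨-, a1, b1, c1⟩, ⟨-, a2, b2, c2⟩⟩
    exact ⟨Psi_mem hF h h', hact.2 ⟨a1, a2⟩, (hfix p hp hp').2 ⟨b1, b2⟩, (hfix q hq hq').2 ⟨c1, c2⟩⟩

/-! ### the scalars -/

theorem mem_cent_dbl {R R' : Subgroup X} (hR : R ≤ Y) (hR' : R' ≤ Y) (g : Lam Y) :
    g ∈ Subgroup.centralizer (((R.prod R').subgroupOf (Lam Y) : Subgroup (Lam Y)) : Set (Lam Y)) ↔
      g.1.1 ∈ Subgroup.centralizer (R : Set X) ∧ g.1.2 ∈ Subgroup.centralizer (R' : Set X) := by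
  rw [Subgroup.mem_centralizer_iff, Subgroup.mem_centralizer_iff, Subgroup.mem_centralizer_iff]
  constructor
  · intro h
    refine ⟨fun r hr => ?_, fun r hr => ?_⟩
    · have hm : ((r, 1) : X × X) ∈ Lam Y := by
        rw [mem_Lam, mul_one]
        exact Y.inv_mem (hR hr)
      have h1 := h ⟨(r, 1), hm⟩ ⟨hr, R'.one_mem⟩
      exact congrArg (fun z : Lam Y => z.1.1) h1
    · have hm : ((1, r) : X × X) ∈ Lam Y := by
        rw [mem_Lam, inv_one, one_mul]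
        exact hR' hr
      have h1 := h ⟨(1, r), hm⟩ ⟨R.one_mem, hr⟩
      exact congrArg (fun z : Lam Y => z.1.2) h1
  · rintro ⟨h1, h2⟩ r ⟨hr1, hr2⟩
    apply Subtype.ext
    exact Prod.ext (h1 _ hr1) (h2 _ hr2)

theorem br_dbl {R R' : Subgroup X} (hR : R ≤ Y) (hR' : R' ≤ Y) (v v' : X → F) (g : Lam Y) :
    br ((R.prod R').subgroupOf (Lam Y)) (sig Y v v') g = br R v g.1.1 * br R' v' (g.1.2)⁻¹ := by
  have hinv : (g.1.2)⁻¹ ∈ Subgroup.centralizer (R' : Set X) ↔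
      g.1.2 ∈ Subgroup.centralizer (R' : Set X) := inv_mem_iff
  unfold br
  by_cases h1 : g.1.1 ∈ Subgroup.centralizer (R : Set X)
  · by_cases h2 : g.1.2 ∈ Subgroup.centralizer (R' : Set X)
    · rw [if_pos ((mem_cent_dbl hR hR' g).2 ⟨h1, h2⟩), if_pos h1, if_pos (hinv.2 h2)]
      rfl
    · rw [if_neg (fun h => h2 ((mem_cent_dbl hR hR' g).1 h).2), if_neg (fun h => h2 (hinv.1 h)),
        mul_zero]
  · rw [if_neg (fun h => h1 ((mem_cent_dbl hR hR' g).1 h).1), if_neg h1, zero_mul]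

theorem kr_sum {ι κ : Type} [Fintype ι] [Fintype κ] {n m : ℕ} (x : ι → F) (y : κ → F)
    (M : ι → Matrix (Fin n) (Fin n) F) (N : κ → Matrix (Fin m) (Fin m) F) :
    kr (∑ a, x a • M a) (∑ b, y b • N b) = ∑ a, ∑ b, (x a * y b) • kr (M a) (N b) := by
  apply H74.kr_ext
  intro i j k l
  rw [H74.kr_apply, Matrix.sum_apply, Matrix.sum_apply, Matrix.sum_apply, Finset.sum_mul_sum]
  refine Finset.sum_congr rfl fun a _ => ?_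
  rw [Matrix.sum_apply]
  refine Finset.sum_congr rfl fun b _ => ?_
  rw [Matrix.smul_apply, Matrix.smul_apply, Matrix.smul_apply, H74.kr_apply]
  simp only [smul_eq_mul]
  ring

theorem imp_mul {S : Subgroup X} {n : ℕ} {ρ : ↥(Y ⊓ S) →* Matrix (Fin n) (Fin n) F} {x y : X}
    (hy : y ∈ S) {A B : Matrix (Fin n) (Fin n) F} (hA : ImpJ ρ x A) (hB : ImpJ ρ y B) :
    ImpJ ρ (x * y) (A * B) := by
  refine ⟨hA.1.mul hB.1, fun g g' hg => ?_⟩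
  have hm : y * g * y⁻¹ ∈ Y ⊓ S :=
    ⟨hY.conj_mem _ g.2.1 y, S.mul_mem (S.mul_mem hy g.2.2) (S.inv_mem hy)⟩
  have h1 := hB.2 g ⟨y * g * y⁻¹, hm⟩ rfl
  have h2 := hA.2 ⟨y * g * y⁻¹, hm⟩ g' (by rw [hg]; group)
  rw [mul_assoc, h1, ← mul_assoc, h2, mul_assoc]

theorem imp_inv {S : Subgroup X} {n : ℕ} {ρ : ↥(Y ⊓ S) →* Matrix (Fin n) (Fin n) F} {x : X}
    {a : (Matrix (Fin n) (Fin n) F)ˣ} (hA : ImpJ ρ x (a : Matrix (Fin n) (Fin n) F)) :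
    ImpJ ρ x⁻¹ ((a⁻¹ : (Matrix (Fin n) (Fin n) F)ˣ) : Matrix (Fin n) (Fin n) F) := by
  refine ⟨⟨a⁻¹, rfl⟩, fun g g' hg => ?_⟩
  have h1 := hA.2 g' g (by rw [hg]; group)
  rw [Units.inv_mul_eq_iff_eq_mul, ← mul_assoc, h1, mul_assoc, Units.mul_inv, mul_one]

theorem unit_calc {n : ℕ} (W : Matrix (Fin n) (Fin n) F) (a b : (Matrix (Fin n) (Fin n) F)ˣ)
    (c : F) (h : W * ((a : Matrix (Fin n) (Fin n) F) * b) =
      c • ((b : Matrix (Fin n) (Fin n) F) * a)) :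
    W = c • (((b * a * b⁻¹ * a⁻¹ : (Matrix (Fin n) (Fin n) F)ˣ)) : Matrix (Fin n) (Fin n) F) := by
  have h0 : ((a : Matrix (Fin n) (Fin n) F) * b) * (((b⁻¹ : (Matrix (Fin n) (Fin n) F)ˣ) :
      Matrix (Fin n) (Fin n) F) * (a⁻¹ : (Matrix (Fin n) (Fin n) F)ˣ)) = 1 := by
    rw [mul_assoc, Units.mul_inv_cancel_left, Units.mul_inv]
  have h4 := congrArg (fun M => M * (((b⁻¹ : (Matrix (Fin n) (Fin n) F)ˣ) :
      Matrix (Fin n) (Fin n) F) * (a⁻¹ : (Matrix (Fin n) (Fin n) F)ˣ))) h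
  beta_reduce at h4
  rw [mul_assoc, h0, mul_one, smul_mul_assoc] at h4
  rw [h4]
  simp only [Units.val_mul, mul_assoc]

/-- the element on the other side -/
theorem ev_swap {S R : Subgroup X} {n : ℕ} {ρ : ↥(Y ⊓ S) →* Matrix (Fin n) (Fin n) F} {x y : X}
    (hx : x ∈ S) (hy : y ∈ S) {a b : (Matrix (Fin n) (Fin n) F)ˣ}
    (hA : ImpJ ρ x (a : Matrix (Fin n) (Fin n) F)) (hB : ImpJ ρ y (b : Matrix (Fin n) (Fin n) F))
    {u : X → F} {c : F}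
    (hc : ev ρ (fun t : ↥(Y ⊓ S) => br R u (x * y * x⁻¹ * y⁻¹ * t)) *
      ((a : Matrix (Fin n) (Fin n) F) * b) = c • ((b : Matrix (Fin n) (Fin n) F) * a)) :
    ev ρ (fun t : ↥(Y ⊓ S) => br R u (t * (x * y * x⁻¹ * y⁻¹))) =
      c • (((b * a * b⁻¹ * a⁻¹ : (Matrix (Fin n) (Fin n) F)ˣ)) : Matrix (Fin n) (Fin n) F) := by
  obtain ⟨J, hJ⟩ : ∃ J : (Matrix (Fin n) (Fin n) F)ˣ, J = b * a * b⁻¹ * a⁻¹ := ⟨_, rfl⟩
  have himp : ImpJ ρ (y * x * y⁻¹ * x⁻¹) (J : Matrix (Fin n) (Fin n) F) := by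
    have h1 := imp_mul (Y := Y) (S.inv_mem hx) (imp_mul (Y := Y) (S.inv_mem hy)
      (imp_mul (Y := Y) hx hB hA) (imp_inv hB)) (imp_inv hA)
    rw [hJ]
    exact h1
  have hk : y * x * y⁻¹ * x⁻¹ ∈ S :=
    S.mul_mem (S.mul_mem (S.mul_mem hy hx) (S.inv_mem hy)) (S.inv_mem hx)
  have h2 : (J : Matrix (Fin n) (Fin n) F) *
      ev ρ (fun t : ↥(Y ⊓ S) => br R u (t * (x * y * x⁻¹ * y⁻¹))) =
      ev ρ (fun t : ↥(Y ⊓ S) => br R u (x * y * x⁻¹ * y⁻¹ * t)) * J := by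
    have := Fintype.ofFinite ↥(Y ⊓ S)
    unfold ev
    rw [finsum_eq_sum_of_fintype, finsum_eq_sum_of_fintype, Finset.mul_sum, Finset.sum_mul,
      ← Equiv.sum_comp (cjE Y S _ hk).toEquiv (fun t => (br R u (x * y * x⁻¹ * y⁻¹ * t) • ρ t) *
        (J : Matrix (Fin n) (Fin n) F))]
    refine Finset.sum_congr rfl fun t _ => ?_
    have e1 : x * y * x⁻¹ * y⁻¹ * ((cjE Y S _ hk).toEquiv t : X) = t * (x * y * x⁻¹ * y⁻¹) := by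
      show x * y * x⁻¹ * y⁻¹ * (y * x * y⁻¹ * x⁻¹ * t * (y * x * y⁻¹ * x⁻¹)⁻¹) = _
      group
    have e2 := himp.2 t ((cjE Y S _ hk).toEquiv t) rfl
    beta_reduce
    rw [e1, mul_smul_comm, smul_mul_assoc, e2]
  have h3 : ev ρ (fun t : ↥(Y ⊓ S) => br R u (x * y * x⁻¹ * y⁻¹ * t)) = c • (J : Matrix _ _ F) := by
    rw [hJ]
    exact unit_calc _ a b c hc
  rw [h3, smul_mul_assoc] at h2
  have h5 := congrArg (fun M => ((J⁻¹ : (Matrix (Fin n) (Fin n) F)ˣ) :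
    Matrix (Fin n) (Fin n) F) * M) h2
  simp only [mul_smul_comm, Units.inv_mul_cancel_left] at h5
  rw [h5, hJ]

theorem kr_unit {n m : ℕ} {A : Matrix (Fin n) (Fin n) F} {B : Matrix (Fin m) (Fin m) F}
    (hA : IsUnit A) (hB : IsUnit B) : IsUnit (kr A B) := by
  obtain ⟨a, rfl⟩ := hA
  obtain ⟨b, rfl⟩ := hB
  exact IsUnit.of_mul_eq_one (kr ((a⁻¹ : (Matrix (Fin n) (Fin n) F)ˣ) : Matrix (Fin n) (Fin n) F)
    ((b⁻¹ : (Matrix (Fin m) (Fin m) F)ˣ) : Matrix (Fin m) (Fin m) F))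
    (by rw [H74.kr_mul, Units.mul_inv, Units.mul_inv, H74.kr_one])

theorem transpose_unit {m : ℕ} (a : (Matrix (Fin m) (Fin m) F)ˣ) :
    IsUnit (((a⁻¹ : (Matrix (Fin m) (Fin m) F)ˣ) : Matrix (Fin m) (Fin m) F).transpose) :=
  IsUnit.of_mul_eq_one ((a : Matrix (Fin m) (Fin m) F).transpose)
    (by rw [← Matrix.transpose_mul, Units.mul_inv, Matrix.transpose_one])

/-- the implementing matrices of the double -/
theorem imp_kr {S S' : Subgroup X} {n m : ℕ} {ρ : ↥(Y ⊓ S) →* Matrix (Fin n) (Fin n) F}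
    {ρ' : ↥(Y ⊓ S') →* Matrix (Fin m) (Fin m) F}
    {σ : ↥(YY2 Y ⊓ (S.prod S').subgroupOf (Lam Y)) →* Matrix (Fin (n * m)) (Fin (n * m)) F}
    (hσ : ∀ k, σ k = kr (ρ (eK Y S S' k).1) (dualR ρ' (eK Y S S' k).2)) {r : Lam Y}
    {A : Matrix (Fin n) (Fin n) F} {a : (Matrix (Fin m) (Fin m) F)ˣ} (hA : ImpJ ρ r.1.1 A)
    (ha : ImpJ ρ' r.1.2 (a : Matrix (Fin m) (Fin m) F)) :
    ImpJ σ r (kr A (((a⁻¹ : (Matrix (Fin m) (Fin m) F)ˣ) : Matrix (Fin m) (Fin m) F).transpose)) := by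
  refine ⟨kr_unit hA.1 (transpose_unit a), fun g g' hg => ?_⟩
  have h1 := hA.2 (eK Y S S' g).1 (eK Y S S' g').1 (congrArg (fun z : Lam Y => z.1.1) hg)
  have h2 := ha.2 (eK Y S S' g).2⁻¹ (eK Y S S' g').2⁻¹ (by
    have h3 : g'.1.1.2 = r.1.2 * g.1.1.2 * r.1.2⁻¹ := congrArg (fun z : Lam Y => z.1.2) hg
    show (g'.1.1.2)⁻¹ = r.1.2 * (g.1.1.2)⁻¹ * r.1.2⁻¹
    rw [h3]
    group)
  have h3 : ((a⁻¹ : (Matrix (Fin m) (Fin m) F)ˣ) : Matrix (Fin m) (Fin m) F).transpose *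
      dualR ρ' (eK Y S S' g).2 = dualR ρ' (eK Y S S' g').2 *
      ((a⁻¹ : (Matrix (Fin m) (Fin m) F)ˣ) : Matrix (Fin m) (Fin m) F).transpose := by
    rw [dualR_apply, dualR_apply, ← Matrix.transpose_mul, ← Matrix.transpose_mul]
    congr 1
    rw [Units.eq_inv_mul_iff_mul_eq, ← mul_assoc, h2, mul_assoc, Units.mul_inv, mul_one]
  rw [hσ, hσ, H74.kr_mul, H74.kr_mul, h1, h3]

/-- the element of the group ring in the double -/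
theorem ev_dbl {S S' R R' : Subgroup X} (hR : R ≤ Y) (hR' : R' ≤ Y) {n m : ℕ}
    {ρ : ↥(Y ⊓ S) →* Matrix (Fin n) (Fin n) F} {ρ' : ↥(Y ⊓ S') →* Matrix (Fin m) (Fin m) F}
    {σ : ↥(YY2 Y ⊓ (S.prod S').subgroupOf (Lam Y)) →* Matrix (Fin (n * m)) (Fin (n * m)) F}
    (hσ : ∀ k, σ k = kr (ρ (eK Y S S' k).1) (dualR ρ' (eK Y S S' k).2)) (p q : Lam Y)
    (v v' : X → F) :
    ev σ (fun t : ↥(YY2 Y ⊓ (S.prod S').subgroupOf (Lam Y)) =>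
      br ((R.prod R').subgroupOf (Lam Y)) (sig Y v v') (p * q * p⁻¹ * q⁻¹ * t)) =
    kr (ev ρ (fun t : ↥(Y ⊓ S) => br R v (p.1.1 * q.1.1 * p.1.1⁻¹ * q.1.1⁻¹ * t)))
      (ev ρ' (fun t : ↥(Y ⊓ S') =>
        br R' v' (t * (q.1.2 * p.1.2 * q.1.2⁻¹ * p.1.2⁻¹)))).transpose := by
  have := Fintype.ofFinite ↥(Y ⊓ S)
  have := Fintype.ofFinite ↥(Y ⊓ S')
  have := Fintype.ofFinite ↥(YY2 Y ⊓ (S.prod S').subgroupOf (Lam Y))
  unfold ev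
  rw [finsum_eq_sum_of_fintype, finsum_eq_sum_of_fintype, finsum_eq_sum_of_fintype,
    Matrix.transpose_sum]
  simp only [Matrix.transpose_smul]
  rw [kr_sum, ← Equiv.sum_comp (eK Y S S').symm.toEquiv, Fintype.sum_prod_type]
  refine Finset.sum_congr rfl fun a _ => ?_
  rw [← Equiv.sum_comp (Equiv.inv _)]
  refine Finset.sum_congr rfl fun b _ => ?_
  rw [br_dbl hR hR', hσ]
  have e1 : dualR ρ' (eK Y S S' ((eK Y S S').symm.toEquiv (a, (Equiv.inv ↥(Y ⊓ S')) b))).2 =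
      (ρ' b).transpose := by
    show (ρ' (b⁻¹)⁻¹).transpose = (ρ' b).transpose
    rw [inv_inv]
  have e2 : (((p * q * p⁻¹ * q⁻¹ *
      (((eK Y S S').symm.toEquiv (a, (Equiv.inv ↥(Y ⊓ S')) b) :
        ↥(YY2 Y ⊓ (S.prod S').subgroupOf (Lam Y))) : Lam Y) : Lam Y) : X × X).2)⁻¹ =
      b * (q.1.2 * p.1.2 * q.1.2⁻¹ * p.1.2⁻¹) := by
    show (p.1.2 * q.1.2 * p.1.2⁻¹ * q.1.2⁻¹ * (b : X)⁻¹)⁻¹ = _
    group
  rw [e1, e2]
  rfl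

/-- the scalar of the double -/
theorem isSC_double (hF : GoodF ℓ F) {R S R' S' : Subgroup X} (hR : R ≤ Y) (hR' : R' ≤ Y)
    {p q : Lam Y} (hp' : p.1.2 ∈ S') (hq' : q.1.2 ∈ S') {φ : ↥(Y ⊓ S) → F}
    {φ' : ↥(Y ⊓ S') → F} {v v' : X → F} {c c' : F} (h : IsSC Y S R φ p.1.1 q.1.1 v c)
    (h' : IsSC Y S' R' φ' q.1.2 p.1.2 v' c') :
    IsSC (YY2 Y) ((S.prod S').subgroupOf (Lam Y)) ((R.prod R').subgroupOf (Lam Y))
      (Psi Y S S' φ φ') p q (sig Y v v') (c * c') := by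
  obtain ⟨n, ρ, A, B, hρ, rfl, hA, hB, hc⟩ := h
  obtain ⟨m, ρ', B', A', hρ', rfl, hB', hA', hc'⟩ := h'
  obtain ⟨b, rfl⟩ := hB'.1
  obtain ⟨a, rfl⟩ := hA'.1
  obtain ⟨τ, hτ, hτ'⟩ := (H5.pib ℓ F hF ↥(Y ⊓ S) ↥(Y ⊓ S')).1 n m ρ (dualR ρ') hρ (dualR_irr hρ')
  have hσ : ∀ k, (τ.comp (eK Y S S').toMonoidHom) k =
      kr (ρ (eK Y S S' k).1) (dualR ρ' (eK Y S S' k).2) := fun k => hτ' _
  refine ⟨n * m, τ.comp (eK Y S S').toMonoidHom, _, _, H51.isIrr_comp _ hτ, ?_,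
    imp_kr hσ hA hA', imp_kr hσ hB hB', ?_⟩
  · funext k
    unfold tr
    rw [hσ, H74.kr_trace, dualR_apply, Matrix.trace_transpose]
    rfl
  · rw [ev_dbl hR hR' hσ, ev_swap hq' hp' hB' hA' hc', H74.kr_mul, H74.kr_mul, H74.kr_mul, hc]
    have h2 : (c' • (((a * b * a⁻¹ * b⁻¹ : (Matrix (Fin m) (Fin m) F)ˣ)) :
        Matrix (Fin m) (Fin m) F)).transpose *
        (((a⁻¹ : (Matrix (Fin m) (Fin m) F)ˣ) : Matrix (Fin m) (Fin m) F).transpose *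
          ((b⁻¹ : (Matrix (Fin m) (Fin m) F)ˣ) : Matrix (Fin m) (Fin m) F).transpose) =
        c' • (((b⁻¹ : (Matrix (Fin m) (Fin m) F)ˣ) : Matrix (Fin m) (Fin m) F).transpose *
          ((a⁻¹ : (Matrix (Fin m) (Fin m) F)ˣ) : Matrix (Fin m) (Fin m) F).transpose) := by
      rw [← Matrix.transpose_mul, ← Matrix.transpose_mul, ← Matrix.transpose_mul,
        ← Matrix.transpose_smul]
      congr 1
      rw [mul_smul_comm]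
      congr 1
      have h3 : b⁻¹ * a⁻¹ * (a * b * a⁻¹ * b⁻¹) = a⁻¹ * b⁻¹ := by group
      have h4 := congrArg (fun z : (Matrix (Fin m) (Fin m) F)ˣ => (z : Matrix (Fin m) (Fin m) F)) h3
      simp only [Units.val_mul] at h4
      simp only [Units.val_mul]
      exact h4
    rw [h2, H74.kr_smul_left, H74.kr_smul_right, smul_smul]

end dbl

theorem phiS_swap {F X : Type} [Field F] [Group X] {Y S : Subgroup X} {f : X → F} {x y : X}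
    {φ : ↥(Y ⊓ S) → F} (h : φ ∈ phiS Y S f x y) : φ ∈ phiS Y S f y x :=
  ⟨h.1, h.2.1, h.2.2.2, h.2.2.1⟩

/-- SSP. -/
theorem ssp (hscu : ScuStmt) : SspStmt := by
  intro ℓ F _ hF τ hτ X _ _ Y hY f hf R S R' S' hL hL' p q hp hq hp' hq' v v' hv
  have hxfs := (J74.xfs ℓ F hF X Y hY f hf).2.2.2.1
  -- the unit over the commutator of the second components
  have hv2 : IsUnitOver f Y (p.1.2 * q.1.2 * p.1.2⁻¹ * q.1.2⁻¹) v v' := by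
    have h1 : (p.1.1 * q.1.1 * p.1.1⁻¹ * q.1.1⁻¹)⁻¹ * (p.1.2 * q.1.2 * p.1.2⁻¹ * q.1.2⁻¹) ∈ Y :=
      (p * q * p⁻¹ * q⁻¹).2
    have h2 := (hxfs _ v v' hv).2.2.1 _ h1
    rw [mul_inv_cancel_left] at h2
    exact h2
  have hv3 : IsUnitOver f Y (q.1.2 * p.1.2 * q.1.2⁻¹ * p.1.2⁻¹) v' v := by
    have h2 := (hxfs _ v v' hv2).2.1
    have h3 : (p.1.2 * q.1.2 * p.1.2⁻¹ * q.1.2⁻¹)⁻¹ = q.1.2 * p.1.2 * q.1.2⁻¹ * p.1.2⁻¹ := by group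
    rw [h3] at h2
    exact h2
  have hset : phiS (YY2 Y) ((S.prod S').subgroupOf (Lam Y)) (sig Y f f) p q =
      (fun z : (↥(Y ⊓ S) → F) × (↥(Y ⊓ S') → F) => Psi Y S S' z.1 z.2) ''
        (phiS Y S f p.1.1 q.1.1 ×ˢ phiS Y S' f p.1.2 q.1.2) := by
    ext Φ
    constructor
    · intro hΦ
      obtain ⟨φ, hφ, φ', hφ', rfl⟩ := Psi_surj hF hΦ.1
      exact ⟨(φ, φ'), (mem_phi hF hf hL hL' hp hq hp' hq' hφ hφ').1 hΦ, rfl⟩
    · rintro ⟨⟨φ, φ'⟩, ⟨h1, h2⟩, rfl⟩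
      exact (mem_phi hF hf hL hL' hp hq hp' hq' h1.1 h2.1).2 ⟨h1, h2⟩
  have hinj : Set.InjOn (fun z : (↥(Y ⊓ S) → F) × (↥(Y ⊓ S') → F) => Psi Y S S' z.1 z.2)
      (phiS Y S f p.1.1 q.1.1 ×ˢ phiS Y S' f p.1.2 q.1.2) := by
    rintro ⟨φ, φ'⟩ ⟨h1, h2⟩ ⟨ψ, ψ'⟩ ⟨h3, h4⟩ he
    obtain ⟨e1, e2⟩ := Psi_inj hF h1.1 h2.1 h3.1 h4.1 he
    exact Prod.ext e1 e2
  have hfin1 : (phiS Y S f p.1.1 q.1.1).Finite := (H20.ibf ℓ F hF _).1.subset fun φ h => h.1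
  have hfin2 : (phiS Y S' f p.1.2 q.1.2).Finite := (H20.ibf ℓ F hF _).1.subset fun φ h => h.1
  unfold SS
  rw [hset, finsum_mem_image hinj]
  rw [finsum_mem_eq_finite_toFinset_sum _ (hfin1.prod hfin2),
    finsum_mem_eq_finite_toFinset_sum _ hfin1, finsum_mem_eq_finite_toFinset_sum _ hfin2, map_sum,
    Finset.sum_mul_sum, ← Finset.sum_product', ← Set.Finite.toFinset_prod hfin1 hfin2]
  refine Finset.sum_congr rfl fun z hz => ?_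
  rw [Finset.mem_product, Set.Finite.mem_toFinset, Set.Finite.mem_toFinset] at hz
  obtain ⟨h1, h2⟩ := hz
  obtain ⟨a1, a2, -, -, -⟩ := hscu ℓ F hF X Y hY f hf R S hL _ hp _ hq v v' hv z.1 h1
  obtain ⟨b1, -, -, -, b5⟩ := hscu ℓ F hF X Y hY f hf R' S' hL' _ hp' _ hq' v v' hv2 z.2 h2
  obtain ⟨-, c2, -, -, -⟩ := hscu ℓ F hF X Y hY f hf R' S' hL' _ hq' _ hp' v' v hv3 z.2
    (phiS_swap h2)
  rw [b5] at c2
  have hd := isSC_double (Y := Y) hF hL.le hL'.le hp' hq' a2 c2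
  have hpS : p ∈ (S.prod S').subgroupOf (Lam Y) := ⟨hp, hp'⟩
  have hqS : q ∈ (S.prod S').subgroupOf (Lam Y) := ⟨hq, hq'⟩
  rw [sc_eq hF (YY2_normal Y) hpS hqS hd, hτ.mul _ _ a1 (inv_ne_zero b1), tau_inv hF hτ b1]

end Pool.Agent.PP.H91R
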