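import Pool.Agent.Helper5_PP.Pib
import Pool.Agent.Helper51_PP.Pip
import Pool.Agent.Helper74_PP.Xfs
import Pool.Agent.Helper74_PP.Tens
import Pool.Agent.Helper67_PP.Ex

/-!
# Squad PP, module SSP, part 1: duals, uniqueness of the scalars, the scalar of a block idempotent
-/

open scoped BigOperators

set_option linter.unusedSectionVars false

noncomputable section

namespace Pool.Agent.PP.H91R

open Pool.Agent.Helper51_AWC Pool.Agent.Helper79_WRA Pool.Agent.PP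

section dual

variable {F H : Type} [Field F] [Group H]

/-- the dual representation -/
def dualR {m : ℕ} (ρ : H →* Matrix (Fin m) (Fin m) F) : H →* Matrix (Fin m) (Fin m) F where
  toFun h := (ρ h⁻¹).transpose
  map_one' := by simp
  map_mul' a b := by rw [mul_inv_rev, map_mul, Matrix.transpose_mul]

theorem dualR_apply {m : ℕ} (ρ : H →* Matrix (Fin m) (Fin m) F) (h : H) :
    dualR ρ h = (ρ h⁻¹).transpose := rfl

theorem dualR_irr {m : ℕ} {ρ : H →* Matrix (Fin m) (Fin m) F} (hρ : IsIrr ρ) :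
    IsIrr (dualR ρ) := by
  refine ⟨hρ.1, ?_⟩
  have h1 : Set.range (dualR ρ) =
      (Matrix.transposeLinearEquiv (Fin m) (Fin m) F F) '' Set.range ρ := by
    ext A
    constructor
    · rintro ⟨h, rfl⟩
      exact ⟨ρ h⁻¹, ⟨h⁻¹, rfl⟩, rfl⟩
    · rintro ⟨_, ⟨h, rfl⟩, rfl⟩
      refine ⟨h⁻¹, ?_⟩
      rw [dualR_apply, inv_inv]
      rfl
  have h2 : Submodule.span F ((Matrix.transposeLinearEquiv (Fin m) (Fin m) F F) '' Set.range ρ) =
      (Submodule.span F (Set.range ρ)).map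
        (Matrix.transposeLinearEquiv (Fin m) (Fin m) F F).toLinearMap :=
    (Submodule.map_span _ _).symm
  rw [h1, h2, hρ.2, Submodule.map_top, LinearMap.range_eq_top]
  exact (Matrix.transposeLinearEquiv (Fin m) (Fin m) F F).surjective

/-- the dual of a function -/
def dlf (φ : H → F) : H → F := fun h => φ h⁻¹

theorem dlf_dlf (φ : H → F) : dlf (dlf φ) = φ := by
  funext h
  simp [dlf]

theorem tr_dualR {m : ℕ} (ρ : H →* Matrix (Fin m) (Fin m) F) : tr (dualR ρ) = dlf (tr ρ) := by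
  funext h
  show ((ρ h⁻¹).transpose).trace = (ρ h⁻¹).trace
  rw [Matrix.trace_transpose]

theorem dlf_mem {φ : H → F} (h : φ ∈ IBr F H) : dlf φ ∈ IBr F H := by
  obtain ⟨m, ρ, hρ, rfl⟩ := h
  exact ⟨m, dualR ρ, dualR_irr hρ, (tr_dualR ρ).symm⟩

end dual

section uniq

variable {ℓ : ℕ} {F X : Type} [Field F] [Group X] [Finite X]

/-- two implementing matrices differ by a nonzero scalar -/
theorem imp_scalar {L : Subgroup X} {n : ℕ} {ρ : L →* Matrix (Fin n) (Fin n) F} (hρ : IsIrr ρ)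
    {x : X} (hx : ∀ g : L, x * g * x⁻¹ ∈ L) {A A' : Matrix (Fin n) (Fin n) F}
    (h : ImpJ ρ x A) (h' : ImpJ ρ x A') : ∃ a : F, a ≠ 0 ∧ A' = a • A := by
  obtain ⟨⟨u, rfl⟩, hA⟩ := h
  obtain ⟨⟨u', rfl⟩, hA'⟩ := h'
  obtain ⟨w, hw⟩ := schur hρ ((u⁻¹ : (Matrix (Fin n) (Fin n) F)ˣ) * u') (by
    intro g
    have h1 := hA' g ⟨x * g * x⁻¹, hx g⟩ rfl
    have h2 := hA g ⟨x * g * x⁻¹, hx g⟩ rfl
    have h3 : (u⁻¹ : (Matrix (Fin n) (Fin n) F)ˣ) * ρ ⟨x * g * x⁻¹, hx g⟩ =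
        ρ g * (u⁻¹ : (Matrix (Fin n) (Fin n) F)ˣ) := by
      calc ((u⁻¹ : (Matrix (Fin n) (Fin n) F)ˣ) : Matrix (Fin n) (Fin n) F) *
            ρ ⟨x * g * x⁻¹, hx g⟩ = (u⁻¹ : (Matrix (Fin n) (Fin n) F)ˣ) *
            (ρ ⟨x * g * x⁻¹, hx g⟩ * (u : Matrix (Fin n) (Fin n) F)) *
            (u⁻¹ : (Matrix (Fin n) (Fin n) F)ˣ) := by
              simp only [mul_assoc, Units.mul_inv, mul_one]
        _ = ρ g * (u⁻¹ : (Matrix (Fin n) (Fin n) F)ˣ) := by
              rw [← h2, ← mul_assoc, Units.inv_mul, one_mul]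
    rw [mul_assoc, h1, ← mul_assoc, h3, mul_assoc])
  have h3 : (u' : Matrix (Fin n) (Fin n) F) = w • (u : Matrix (Fin n) (Fin n) F) := by
    have h4 : (u' : Matrix (Fin n) (Fin n) F) = u * Matrix.scalar (Fin n) w := by
      rw [← hw, ← mul_assoc, Units.mul_inv, one_mul]
    rw [h4, Matrix.scalar_apply, ← Matrix.smul_eq_mul_diagonal]
  refine ⟨w, ?_, h3⟩
  rintro rfl
  rw [zero_smul] at h3
  have h4 : (1 : Matrix (Fin n) (Fin n) F) = 0 := by
    rw [← Units.mul_inv u', h3, zero_mul]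
  have h5 := congrFun (congrFun h4 ⟨0, hρ.1⟩) ⟨0, hρ.1⟩
  rw [Matrix.one_apply_eq] at h5
  exact one_ne_zero h5

/-- uniqueness of the scalars -/
theorem isSC_unique (hF : GoodF ℓ F) {Y S R : Subgroup X} (hY : Y.Normal)
    {φ : ↥(Y ⊓ S) → F} {x y : X} (hx : x ∈ S) (hy : y ∈ S) {u : X → F} {c c' : F}
    (h : IsSC Y S R φ x y u c) (h' : IsSC Y S R φ x y u c') : c = c' := by
  obtain ⟨n, ρ, A, B, hρ, htr, hA, hB, hc⟩ := h
  obtain ⟨m, ρ', A', B', hρ', htr', hA', hB', hc'⟩ := h'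
  obtain ⟨P, Q, rfl, hPQ, hQP, hP⟩ := H20.ibc ℓ F hF _ n m ρ ρ' hρ hρ' (htr.trans htr'.symm)
  have hQ : ∀ g, Q * ρ' g = ρ g * Q := by
    intro g
    calc Q * ρ' g = Q * ρ' g * (P * Q) := by rw [hPQ, mul_one]
      _ = Q * (ρ' g * P) * Q := by simp only [mul_assoc]
      _ = Q * (P * ρ g) * Q := by rw [hP]
      _ = (Q * P) * ρ g * Q := by simp only [mul_assoc]
      _ = ρ g * Q := by rw [hQP, one_mul]
  have hst : ∀ z ∈ S, ∀ g : ↥(Y ⊓ S), z * g * z⁻¹ ∈ Y ⊓ S := fun z hz g =>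
    ⟨hY.conj_mem _ g.2.1 z, S.mul_mem (S.mul_mem hz g.2.2) (S.inv_mem hz)⟩
  have key : ∀ (z : X) (M : Matrix (Fin n) (Fin n) F), ImpJ ρ' z M → ImpJ ρ z (Q * M * P) := by
    intro z M hM
    refine ⟨?_, ?_⟩
    · exact ((IsUnit.of_mul_eq_one P hQP).mul hM.1).mul (IsUnit.of_mul_eq_one Q hPQ)
    · intro g g' hg
      calc Q * M * P * ρ g = Q * M * (P * ρ g) := by simp only [mul_assoc]
        _ = Q * (M * ρ' g) * P := by rw [hP]; simp only [mul_assoc]
        _ = (Q * ρ' g') * M * P := by rw [hM.2 g g' hg]; simp only [mul_assoc]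
        _ = ρ g' * (Q * M * P) := by rw [hQ]; simp only [mul_assoc]
  obtain ⟨a, ha, hAa⟩ := imp_scalar hρ (hst x hx) hA (key x A' hA')
  obtain ⟨b, hb, hBb⟩ := imp_scalar hρ (hst y hy) hB (key y B' hB')
  obtain ⟨w, hw⟩ : ∃ w : ↥(Y ⊓ S) → F,
      w = fun t : ↥(Y ⊓ S) => br R u (x * y * x⁻¹ * y⁻¹ * t) := ⟨_, rfl⟩
  rw [← hw] at hc hc'
  have hev : ev ρ w = Q * ev ρ' w * P := by
    have := Fintype.ofFinite ↥(Y ⊓ S)
    unfold ev
    rw [finsum_eq_sum_of_fintype, finsum_eq_sum_of_fintype, Finset.mul_sum, Finset.sum_mul]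
    refine Finset.sum_congr rfl fun t _ => ?_
    rw [mul_smul_comm, smul_mul_assoc, hQ, mul_assoc, hQP, mul_one]
  have h1 : ev ρ w * ((Q * A' * P) * (Q * B' * P)) = c' • ((Q * B' * P) * (Q * A' * P)) := by
    calc ev ρ w * ((Q * A' * P) * (Q * B' * P)) =
        Q * ev ρ' w * (P * Q) * A' * (P * Q) * B' * P := by rw [hev]; simp only [mul_assoc]
      _ = Q * (ev ρ' w * (A' * B')) * P := by rw [hPQ]; simp only [mul_assoc, mul_one]
      _ = c' • (Q * (B' * A') * P) := by rw [hc', mul_smul_comm, smul_mul_assoc]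
      _ = c' • (Q * B' * (P * Q) * A' * P) := by rw [hPQ]; simp only [mul_assoc, mul_one]
      _ = c' • ((Q * B' * P) * (Q * A' * P)) := by simp only [mul_assoc]
  rw [hAa, hBb] at h1
  simp only [smul_mul_assoc, mul_smul_comm, hc, smul_smul] at h1
  have h2 : IsUnit (B * A) := hB.1.mul hA.1
  obtain ⟨v, hv⟩ := h2
  rw [← hv] at h1
  have h3 := congrArg (fun M => M * ((v⁻¹ : (Matrix (Fin n) (Fin n) F)ˣ) :
    Matrix (Fin n) (Fin n) F)) h1
  simp only [smul_mul_assoc, Units.mul_inv] at h3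
  have h4 := congrFun (congrFun h3 ⟨0, hρ.1⟩) ⟨0, hρ.1⟩
  simp only [Matrix.smul_apply, Matrix.one_apply_eq, smul_eq_mul, mul_one] at h4
  have h5 : a * b ≠ 0 := mul_ne_zero ha hb
  have h6 : (c - c') * (a * b) = 0 := by linear_combination h4
  rcases mul_eq_zero.1 h6 with h7 | h7
  · exact sub_eq_zero.1 h7
  · exact absurd h7 h5

/-- the computation of the scalar -/
theorem sc_eq (hF : GoodF ℓ F) {Y S R : Subgroup X} (hY : Y.Normal)
    {φ : ↥(Y ⊓ S) → F} {x y : X} (hx : x ∈ S) (hy : y ∈ S) {u : X → F} {c : F}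
    (h : IsSC Y S R φ x y u c) : sc Y S R φ x y u = c := by
  have hex : ∃ c, IsSC Y S R φ x y u c := ⟨c, h⟩
  unfold sc
  rw [dif_pos hex]
  exact isSC_unique hF hY hx hy hex.choose_spec h

/-- the block idempotent acts on the modular characters of a local subgroup by zero or one -/
theorem blk_scalar (hF : GoodF ℓ F) {Y : Subgroup X} (hY : Y.Normal) {f : X → F}
    (hf : SBlk Y f) {R S : Subgroup X} (hL : Loc ℓ Y R S) {φ : ↥(Y ⊓ S) → F}
    (hφ : φ ∈ IBr F ↥(Y ⊓ S)) :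
    actF (fun t : ↥(Y ⊓ S) => f t) φ = φ ∨ actF (fun t : ↥(Y ⊓ S) => f t) φ = 0 := by
  obtain ⟨n, ρ, hρ, rfl⟩ := hφ
  have hcl : IsCl (fun t : ↥(Y ⊓ S) => f t) := fun a b => hf.cl _ _
  obtain ⟨w, h1, h2, -⟩ := H20.eig F _ n ρ hρ _ hcl
  have hRle : R ≤ Y ⊓ S := le_inf hL.le hL.leS
  have hRn : (R.subgroupOf (Y ⊓ S)).Normal :=
    (Subgroup.normal_subgroupOf_iff_le_normalizer hRle).2 (inf_le_right.trans hL.norm)
  have hRp : IsPGroup ℓ (R.subgroupOf (Y ⊓ S)) :=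
    hL.pgrp.comap_of_injective (Y ⊓ S).subtype (Y ⊓ S).subtype_injective
  have hbr : br (R.subgroupOf (Y ⊓ S)) (fun t : ↥(Y ⊓ S) => f t) =
      fun t : ↥(Y ⊓ S) => br R f t := by
    funext t
    unfold br
    have hiff : t ∈ Subgroup.centralizer ((R.subgroupOf (Y ⊓ S) : Subgroup ↥(Y ⊓ S)) :
        Set ↥(Y ⊓ S)) ↔ (t : X) ∈ Subgroup.centralizer (R : Set X) := by
      rw [Subgroup.mem_centralizer_iff, Subgroup.mem_centralizer_iff]
      constructor
      · intro h y hy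
        exact congrArg Subtype.val (h ⟨y, hRle hy⟩ hy)
      · intro h y hy
        exact Subtype.ext (h y hy)
    by_cases h : (t : X) ∈ Subgroup.centralizer (R : Set X)
    · rw [if_pos h, if_pos (hiff.2 h)]
    · rw [if_neg h, if_neg (fun h2 => h (hiff.1 h2))]
  have h3 := ((H20.nls ℓ F hF _ (R.subgroupOf (Y ⊓ S)) hRn hRp n ρ hρ).2 _ hcl).1
  rw [hbr] at h3
  have h4 : ev ρ (fun t : ↥(Y ⊓ S) => br R f t) = H67.ex ρ (br R f) := rfl
  have hsp : H67.Sp (Y ⊓ S) (br R f) := by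
    intro g hg
    unfold br
    by_cases hc : g ∈ Subgroup.centralizer (R : Set X)
    · rw [if_pos hc]
      refine hf.supp g fun hgY => hg ⟨hgY, hL.cent hc⟩
    · rw [if_neg hc]
  have h5 : mulF (br R f) (br R f) = br R f := by
    have h6 := (H20.brm ℓ F hF X R S hL.pgrp hL.cent hL.norm).1 f f hf.cl hf.cl
    rw [← h6, J74.f_idem hf]
  have h7 : H67.ex ρ (br R f) * H67.ex ρ (br R f) = H67.ex ρ (br R f) := by
    rw [← H67.ex_mulF_right ρ hsp, h5]
  rw [← h4, ← h3, h1, ← map_mul] at h7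
  have h8 : w * w = w := by
    have := congrFun (congrFun h7 ⟨0, hρ.1⟩) ⟨0, hρ.1⟩
    simpa using this
  have h9 : w * (w - 1) = 0 := by linear_combination h8
  rcases mul_eq_zero.1 h9 with h | h
  · right
    rw [h2, h, zero_smul]
  · left
    rw [h2, sub_eq_zero.1 h, one_smul]

end uniq

end Pool.Agent.PP.H91R
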